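import Mathlib

set_option autoImplicit false

namespace Pool.Agent.Results.MP_fa7ade_co.Six

/-- The cyclic vertex order `σ 0, σ 1, …` is a directed Hamiltonian cycle of `D`. -/
def IsHam {n : ℕ} (D : Digraph (Fin n)) (σ : Equiv.Perm (Fin n)) : Prop :=
  ∀ i : Fin n, D.Adj (σ i) (σ (finRotate n i))

def out : Fin 6 → List (Fin 6) := ![[2, 4, 5], [0, 2, 3], [1, 3, 4], [1, 2, 5], [0, 3, 5], [0, 1, 4]]

def D : Digraph (Fin 6) := ⟨fun u v => v ∈ out u⟩

instance : DecidableRel D.Adj := fun u v => inferInstanceAs (Decidable (v ∈ out u))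

instance (σ : Equiv.Perm (Fin 6)) : Decidable (IsHam D σ) := by unfold IsHam; infer_instance

/-- Even for `n ≥ 5`, minimum semidegree at least `n/2` does not force two arc-disjoint
directed Hamiltonian cycles. -/
theorem result : ¬ ∀ (n : ℕ), 5 ≤ n → ∀ D : Digraph (Fin n), (∀ v, ¬ D.Adj v v) →
    (∀ v, n ≤ 2 * {w | D.Adj v w}.ncard ∧ n ≤ 2 * {w | D.Adj w v}.ncard) →
    ∃ σ τ : Equiv.Perm (Fin n), IsHam D σ ∧ IsHam D τ ∧
      ∀ i j, ¬ (σ i = τ j ∧ σ (finRotate n i) = τ (finRotate n j)) := by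
  intro h
  obtain ⟨σ, τ, h1, h2, h3⟩ := h 6 (by norm_num) D (by decide) (by
    intro v
    rw [Set.ncard_eq_toFinset_card', Set.ncard_eq_toFinset_card']
    revert v
    decide +kernel)
  have key : ∀ σ : Equiv.Perm (Fin 6), IsHam D σ → ∀ τ : Equiv.Perm (Fin 6), IsHam D τ →
      ∃ i j, σ i = τ j ∧ σ (finRotate 6 i) = τ (finRotate 6 j) := by decide +kernel
  obtain ⟨i, j, h4⟩ := key σ h1 τ h2
  exact h3 i j h4

end Pool.Agent.Results.MP_fa7ade_co.Six
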